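import Pool.Agent.Helper34.Plane.Glue

/-!
# Eilenberg's theorem: nonvanishing continuous functions on a compact plane set with connected complement
have continuous logarithms
-/

set_option autoImplicit false
open Set Filter Topology

namespace Pool.Agent.Helper34.Plane

/-- a logarithm on a closed subset extends to a neighbourhood -/
theorem ext_nhds {K E : Set ℂ} (hEK : E ⊆ K) (hE : IsClosed E) {φ : ℂ → ℂ}
    (hφ : ContinuousOn φ K) (h : HasLog E φ) : ∃ U : Set ℂ, IsOpen U ∧ E ⊆ U ∧ HasLog (K ∩ U) φ := by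
  obtain ⟨g, cg, eg⟩ := h
  obtain ⟨G, hG⟩ := ContinuousMap.exists_restrict_eq hE ⟨fun x : E => g x, continuousOn_iff_continuous_domRestrict.mp cg⟩
  have hGg : ∀ z ∈ E, G z = g z := by
    intro z hz
    exact congrArg (fun f => f ⟨z, hz⟩) hG
  set ψ : ℂ → ℂ := fun z => φ z * Complex.exp (-G z) with hψ
  have cψ : ContinuousOn ψ K := hφ.mul (Complex.continuous_exp.comp G.continuous.neg).continuousOn
  have hψE : ∀ z ∈ E, ψ z = 1 := by
    intro z hz
    rw [hψ]
    show φ z * Complex.exp (-G z) = 1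
    rw [← eg z hz, hGg z hz, ← Complex.exp_add, add_neg_cancel, Complex.exp_zero]
  have cn : ContinuousOn (fun z => ‖ψ z - 1‖) K := (cψ.sub continuousOn_const).norm
  obtain ⟨u, hu, huK⟩ := continuousOn_iff'.mp cn (Iio 1) isOpen_Iio
  refine ⟨u, hu, ?_, ?_⟩
  · intro z hz
    have : z ∈ (fun z => ‖ψ z - 1‖) ⁻¹' Iio 1 ∩ K := by
      refine ⟨?_, hEK hz⟩
      show ‖ψ z - 1‖ < 1
      rw [hψE z hz, sub_self, norm_zero]
      exact one_pos
    rw [huK] at this
    exact this.1
  · have h1 : HasLog (K ∩ u) ψ := by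
      apply hasLog_near_one (cψ.mono inter_subset_left)
      intro z hz
      have : z ∈ u ∩ K := ⟨hz.2, hz.1⟩
      rw [← huK] at this
      exact this.1
    have h2 : HasLog (K ∩ u) (fun z => Complex.exp (G z)) := ⟨G, G.continuous.continuousOn, fun _ _ => rfl⟩
    refine (h1.mul h2).congr fun z _ => ?_
    show φ z * Complex.exp (-G z) * Complex.exp (G z) = φ z
    rw [mul_assoc, ← Complex.exp_add, neg_add_cancel, Complex.exp_zero, mul_one]

/-- compact subsets of a horizontal line -/
theorem hasLog_line {K : Set ℂ} (hK : IsCompact K) {φ : ℂ → ℂ} (hφ : ContinuousOn φ K)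
    (h0 : ∀ z ∈ K, φ z ≠ 0) (s : ℝ) : HasLog (K ∩ {z | z.im = s}) φ := by
  set E := K ∩ {z : ℂ | z.im = s} with hE
  have hEc : IsCompact E := hK.inter_right (isClosed_eq Complex.continuous_im continuous_const)
  have hEK : E ⊆ K := inter_subset_left
  rcases E.eq_empty_or_nonempty with hemp | hne
  · rw [hemp]
    exact ⟨fun _ => 0, continuousOn_const, fun z hz => absurd hz (notMem_empty z)⟩
  obtain ⟨w0, hw0, hmin⟩ := hEc.exists_isMinOn hne (hφ.mono hEK).norm
  have hc0 : 0 < ‖φ w0‖ := norm_pos_iff.mpr (h0 w0 (hEK hw0))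
  have hu := hEc.uniformContinuousOn_of_continuous (hφ.mono hEK)
  rw [Metric.uniformContinuousOn_iff] at hu
  obtain ⟨ε, hε, H⟩ := hu ‖φ w0‖ hc0
  obtain ⟨R, hR⟩ := hK.isBounded.subset_closedBall (0 : ℂ)
  have hre : ∀ z ∈ K, |z.re| ≤ R := by
    intro z hz
    have := hR hz
    rw [Metric.mem_closedBall, dist_zero_right] at this
    exact (Complex.abs_re_le_norm z).trans this
  have main : ∀ k : ℕ, HasLog (E ∩ {z | z.re ≤ -R - 1 + k * (ε / 2)}) φ := by
    intro k
    induction k with
    | zero =>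
      refine ⟨fun _ => 0, continuousOn_const, fun z hz => ?_⟩
      exfalso
      have h1 := (abs_le.mp (hre z (hEK hz.1))).1
      have h2 : z.re ≤ -R - 1 + ((0 : ℕ) : ℝ) * (ε / 2) := hz.2
      simp at h2
      linarith
    | succ k ih =>
      set a : ℝ := -R - 1 + k * (ε / 2) with ha
      have e : -R - 1 + ((k + 1 : ℕ) : ℝ) * (ε / 2) = a + ε / 2 := by rw [ha]; push_cast; ring
      rw [e]
      obtain ⟨g1, c1, e1⟩ := ih
      have h2 : HasLog (E ∩ {z | a ≤ z.re ∧ z.re ≤ a + ε / 2}) φ := by
        rcases (E ∩ {z : ℂ | a ≤ z.re ∧ z.re ≤ a + ε / 2}).eq_empty_or_nonempty with h3 | ⟨w, hw⟩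
        · rw [h3]
          exact ⟨fun _ => 0, continuousOn_const, fun z hz => absurd hz (notMem_empty z)⟩
        · apply hasLog_near_const ((hφ.mono hEK).mono inter_subset_left) (h0 w (hEK hw.1))
          intro z hz
          have hd : dist z w < ε := by
            have : z - w = (((z.re - w.re : ℝ)) : ℂ) := by
              apply Complex.ext
              · simp
              · have q1 : z.im = s := hz.1.2
                have q2 : w.im = s := hw.1.2
                simp [q1, q2]
            rw [dist_eq_norm, this, Complex.norm_real, Real.norm_eq_abs]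
            have p1 : a ≤ z.re := hz.2.1
            have p2 : z.re ≤ a + ε / 2 := hz.2.2
            have p3 : a ≤ w.re := hw.2.1
            have p4 : w.re ≤ a + ε / 2 := hw.2.2
            have : |z.re - w.re| ≤ ε / 2 := by rw [abs_le]; constructor <;> linarith
            linarith
          have h4 := H z hz.1 w hw.1 hd
          rw [dist_eq_norm] at h4
          exact lt_of_lt_of_le h4 (hmin hw.1)
      obtain ⟨g2, c2, e2⟩ := h2
      -- shift
      set q : ℂ := ⟨a, s⟩ with hq
      obtain ⟨κ, hκ1, hκ2⟩ : ∃ κ : ℂ, Complex.exp κ = 1 ∧ (q ∈ E → g1 q = g2 q + κ) := by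
        by_cases hqE : q ∈ E
        · refine ⟨g1 q - g2 q, ?_, fun _ => by ring⟩
          rw [Complex.exp_sub, e1 q ⟨hqE, (le_refl a : q.re ≤ a)⟩,
            e2 q ⟨hqE, (le_refl a : a ≤ q.re), (by show a ≤ a + ε / 2; linarith)⟩]
          exact div_self (h0 q (hEK hqE))
        · exact ⟨0, Complex.exp_zero, fun h => absurd h hqE⟩
      set A := E ∩ {z : ℂ | z.re ≤ a} with hA
      set B := E ∩ {z : ℂ | a ≤ z.re ∧ z.re ≤ a + ε / 2} with hB
      have hAc : IsClosed A := hEc.isClosed.inter (isClosed_le Complex.continuous_re continuous_const)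
      have hBc : IsClosed B := by
        apply hEc.isClosed.inter
        exact (isClosed_le continuous_const Complex.continuous_re).inter
          (isClosed_le Complex.continuous_re continuous_const)
      have hcup : E ∩ {z : ℂ | z.re ≤ a + ε / 2} = A ∪ B := by
        ext z
        constructor
        · intro hz
          rcases le_total z.re a with h | h
          · exact Or.inl ⟨hz.1, h⟩
          · exact Or.inr ⟨hz.1, h, hz.2⟩
        · rintro (hz | hz)
          · have : z.re ≤ a := hz.2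
            exact ⟨hz.1, (by show z.re ≤ a + ε / 2; linarith)⟩
          · exact ⟨hz.1, hz.2.2⟩
      have hgA : ∀ z ∈ A, (if z.re ≤ a then g1 z else g2 z + κ) = g1 z := by
        intro z hz
        rw [if_pos (show z.re ≤ a from hz.2)]
      have hgB : ∀ z ∈ B, (if z.re ≤ a then g1 z else g2 z + κ) = g2 z + κ := by
        intro z hz
        by_cases h : z.re ≤ a
        · rw [if_pos h]
          have hzq : z = q := Complex.ext (le_antisymm h hz.2.1) hz.1.2
          rw [hzq]
          exact hκ2 (hzq ▸ hz.1)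
        · rw [if_neg h]
      refine ⟨fun z => if z.re ≤ a then g1 z else g2 z + κ, ?_, ?_⟩
      · rw [hcup]
        exact (c1.congr hgA).union_of_isClosed ((c2.add continuousOn_const).congr hgB) hAc hBc
      · intro z hz
        rw [hcup] at hz
        show Complex.exp (if z.re ≤ a then g1 z else g2 z + κ) = φ z
        rcases hz with hz | hz
        · rw [hgA z hz, e1 z hz]
        · rw [hgB z hz, Complex.exp_add, hκ1, mul_one, e2 z hz]
  obtain ⟨k, hk⟩ := exists_nat_gt ((2 * R + 1) / (ε / 2))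
  rw [div_lt_iff₀ (half_pos hε)] at hk
  refine (main k).mono fun z hz => ⟨hz, ?_⟩
  have := (abs_le.mp (hre z (hEK hz))).2
  show z.re ≤ -R - 1 + k * (ε / 2)
  linarith

/-- thin strips -/
theorem hasLog_strip {K : Set ℂ} (hK : IsCompact K) {φ : ℂ → ℂ} (hφ : ContinuousOn φ K)
    (h0 : ∀ z ∈ K, φ z ≠ 0) (s : ℝ) : ∃ ε > 0, HasLog (K ∩ {z | |z.im - s| < ε}) φ := by
  have hEc : IsClosed (K ∩ {z : ℂ | z.im = s}) :=
    hK.isClosed.inter (isClosed_eq Complex.continuous_im continuous_const)
  obtain ⟨U, hU, hEU, hlog⟩ := ext_nhds inter_subset_left hEc hφ (hasLog_line hK hφ h0 s)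
  have hC : IsCompact (K \ U) := hK.diff hU
  rcases (K \ U).eq_empty_or_nonempty with hemp | hne
  · refine ⟨1, one_pos, hlog.mono fun z hz => ⟨hz.1, ?_⟩⟩
    by_contra hzU
    have : z ∈ K \ U := ⟨hz.1, hzU⟩
    rw [hemp] at this
    exact this
  · have hcont : ContinuousOn (fun z : ℂ => |z.im - s|) (K \ U) :=
      ((Complex.continuous_im.sub continuous_const).abs).continuousOn
    obtain ⟨w, hw, hmin⟩ := hC.exists_isMinOn hne hcont
    have hpos : 0 < |w.im - s| := by
      rw [abs_pos]
      intro h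
      exact hw.2 (hEU ⟨hw.1, sub_eq_zero.mp h⟩)
    refine ⟨|w.im - s|, hpos, hlog.mono fun z hz => ⟨hz.1, ?_⟩⟩
    by_contra hzU
    have h1 : |w.im - s| ≤ |z.im - s| := hmin (⟨hz.1, hzU⟩ : z ∈ K \ U)
    have h2 : |z.im - s| < |w.im - s| := hz.2
    linarith

/-- **Eilenberg's theorem** -/
theorem hasLog_of_compl {K : Set ℂ} (hK : IsCompact K) (hc : IsPreconnected Kᶜ) {φ : ℂ → ℂ}
    (hφ : ContinuousOn φ K) (h0 : ∀ z ∈ K, φ z ≠ 0) : HasLog K φ := by
  obtain ⟨R, hR⟩ := hK.isBounded.subset_closedBall (0 : ℂ)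
  have him : ∀ z ∈ K, |z.im| ≤ R := by
    intro z hz
    have := hR hz
    rw [Metric.mem_closedBall, dist_zero_right] at this
    exact (Complex.abs_im_le_norm z).trans this
  choose ε hε hlog using fun s => hasLog_strip hK hφ h0 s
  obtain ⟨δ, hδ, hL⟩ := lebesgue_number_lemma_of_metric (s := Icc (-R) R)
    (c := fun s : ℝ => Metric.ball s (ε s)) isCompact_Icc (fun s => Metric.isOpen_ball)
    (fun x _ => mem_iUnion.mpr ⟨x, Metric.mem_ball_self (hε x)⟩)
  have main : ∀ k : ℕ, HasLog (K ∩ {z | z.im ≤ -R + k * (δ / 2)}) φ := by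
    intro k
    induction k with
    | zero =>
      refine (hasLog_line hK hφ h0 (-R)).mono fun z hz => ⟨hz.1, ?_⟩
      have h1 := (abs_le.mp (him z hz.1)).1
      have h2 : z.im ≤ -R + ((0 : ℕ) : ℝ) * (δ / 2) := hz.2
      simp at h2
      exact le_antisymm h2 h1
    | succ k ih =>
      have hk0 : (0 : ℝ) ≤ k * (δ / 2) := by positivity
      set a : ℝ := -R + k * (δ / 2) with ha
      have e : -R + ((k + 1 : ℕ) : ℝ) * (δ / 2) = a + δ / 2 := by rw [ha]; push_cast; ring
      rw [e]
      by_cases haR : a ≤ R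
      · obtain ⟨s, hs⟩ := hL a ⟨by linarith, haR⟩
        apply glue hK hc (by linarith) ih
        refine (hlog s).mono fun z hz => ⟨hz.1, ?_⟩
        have h1 : a ≤ z.im := hz.2.1
        have h2 : z.im ≤ a + δ / 2 := hz.2.2
        have h3 : z.im ∈ Metric.ball a δ := by
          rw [Metric.mem_ball, Real.dist_eq, abs_lt]
          constructor <;> linarith
        have h4 := hs h3
        rw [Metric.mem_ball, Real.dist_eq] at h4
        exact h4
      · refine ih.mono fun z hz => ⟨hz.1, ?_⟩
        have := (abs_le.mp (him z hz.1)).2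
        show z.im ≤ a
        linarith
  obtain ⟨k, hk⟩ := exists_nat_gt ((2 * R) / (δ / 2))
  rw [div_lt_iff₀ (half_pos hδ)] at hk
  refine (main k).mono fun z hz => ⟨hz, ?_⟩
  have := (abs_le.mp (him z hz)).2
  show z.im ≤ -R + k * (δ / 2)
  linarith

end Pool.Agent.Helper34.Plane
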