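import Pool.Agent.Helper34.Plane.Log

/-!
# Gluing logarithms along a horizontal line; Eilenberg's theorem
-/

set_option autoImplicit false
open Set Filter Topology

namespace Pool.Agent.Helper34.Plane

theorem exp_int_two_pi (n : ℤ) : Complex.exp (n * (2 * Real.pi * Complex.I)) = 1 := by
  rw [Complex.exp_eq_one_iff]
  exact ⟨n, rfl⟩

/-- one step of the sweep along the line `im = s` -/
theorem glue_step {K A B E : Set ℂ} (hK : IsCompact K) (hc : IsPreconnected Kᶜ) {s : ℝ}
    (hAK : A ⊆ K) (hBK : B ⊆ K) (hA : ∀ z ∈ A, z.im ≤ s) (hB : ∀ z ∈ B, s ≤ z.im)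
    (hEA : E ⊆ A) (hEB : E ⊆ B) (hKE : ∀ z ∈ K, z.im = s → z ∈ E)
    {φ : ℂ → ℂ} {n0 : ℂ → ℂ} {δ ε : ℝ} (hδ : 0 < δ) (hδε : δ < ε)
    (hn0 : ∀ x ∈ E, ∀ y ∈ E, dist x y < ε → n0 x = n0 y)
    (hn0i : ∀ x ∈ E, ∃ n : ℤ, n0 x = n * (2 * Real.pi * Complex.I))
    {a : ℝ}
    (h : ∃ (gA gB : ℂ → ℂ) (m : ℤ), ContinuousOn gA A ∧ ContinuousOn gB B ∧
      (∀ z ∈ A, Complex.exp (gA z) = φ z) ∧ (∀ z ∈ B, Complex.exp (gB z) = φ z) ∧
      (∀ z ∈ E, z.re ≤ a → gA z = gB z) ∧
      (∀ z ∈ E, a ≤ z.re → gA z - gB z = n0 z - m * (2 * Real.pi * Complex.I))) :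
    ∃ (gA gB : ℂ → ℂ) (m : ℤ), ContinuousOn gA A ∧ ContinuousOn gB B ∧
      (∀ z ∈ A, Complex.exp (gA z) = φ z) ∧ (∀ z ∈ B, Complex.exp (gB z) = φ z) ∧
      (∀ z ∈ E, z.re ≤ a + δ → gA z = gB z) ∧
      (∀ z ∈ E, a + δ ≤ z.re → gA z - gB z = n0 z - m * (2 * Real.pi * Complex.I)) := by
  obtain ⟨gA, gB, m, cA, cB, eA, eB, h1, h2⟩ := h
  have hEim : ∀ z ∈ E, z.im = s := fun z hz => le_antisymm (hA z (hEA hz)) (hB z (hEB hz))
  by_cases hem : ∃ w ∈ E, a ≤ w.re ∧ w.re ≤ a + δ
  · obtain ⟨w, hw, hw1, hw2⟩ := hem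
    have hN : ∀ z ∈ E, a ≤ z.re → z.re ≤ a + δ → n0 z = n0 w := by
      intro z hz hz1 hz2
      apply hn0 z hz w hw
      have : z - w = (((z.re - w.re : ℝ)) : ℂ) := by
        apply Complex.ext
        · simp
        · simp [hEim z hz, hEim w hw]
      rw [dist_eq_norm, this, Complex.norm_real, Real.norm_eq_abs]
      have : |z.re - w.re| ≤ δ := by rw [abs_le]; constructor <;> linarith
      linarith
    obtain ⟨n, hn⟩ := hn0i w hw
    by_cases hq : (⟨a, s⟩ : ℂ) ∈ K
    · have hqE := hKE _ hq rfl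
      have e1 := h1 _ hqE le_rfl
      have e2 := h2 _ hqE le_rfl
      have e3 := hN _ hqE le_rfl (by show a ≤ a + δ; linarith)
      rw [e1, sub_self, e3] at e2
      refine ⟨gA, gB, m, cA, cB, eA, eB, fun z hz hz1 => ?_, fun z hz hz1 => h2 z hz (by linarith)⟩
      rcases le_total z.re a with h3 | h3
      · exact h1 z hz h3
      · have e4 := h2 z hz h3
        rw [hN z hz h3 hz1, ← e2] at e4
        exact sub_eq_zero.mp e4
    · obtain ⟨G, cG, eG⟩ := hasLog_sub hK hc hq
      set q : ℂ := ⟨a, s⟩ with hqd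
      have hqA : q ∉ A := fun hh => hq (hAK hh)
      have hqB : q ∉ B := fun hh => hq (hBK hh)
      have cLm := continuousOn_Lm (K := A) (q := q) hqA (fun z hz => hA z hz)
      have cLp := continuousOn_Lp (K := B) (q := q) hqB (fun z hz => hB z hz)
      set j : ℤ := n - m with hj
      refine ⟨fun z => gA z + j * (G z - Lm (z - q)),
        fun z => gB z + j * (G z - Lp (z - q)) + j * (2 * Real.pi * Complex.I), n, ?_, ?_, ?_, ?_, ?_, ?_⟩
      · exact cA.add (continuousOn_const.mul ((cG.mono hAK).sub cLm))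
      · exact (cB.add (continuousOn_const.mul ((cG.mono hBK).sub cLp))).add continuousOn_const
      · intro z hz
        have h0 : z - q ≠ 0 := fun h0 => hqA (by rw [sub_eq_zero] at h0; exact h0 ▸ hz)
        have h3 : Complex.exp (G z - Lm (z - q)) = 1 := by
          rw [Complex.exp_sub, eG z (hAK hz), exp_Lm h0 (by have := hA z hz; simp [hqd]; linarith)]
          exact div_self h0
        rw [Complex.exp_add, Complex.exp_int_mul, h3, one_zpow, mul_one, eA z hz]
      · intro z hz
        have h0 : z - q ≠ 0 := fun h0 => hqB (by rw [sub_eq_zero] at h0; exact h0 ▸ hz)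
        have h3 : Complex.exp (G z - Lp (z - q)) = 1 := by
          rw [Complex.exp_sub, eG z (hBK hz), exp_Lp h0 (by have := hB z hz; simp [hqd]; linarith)]
          exact div_self h0
        rw [Complex.exp_add, Complex.exp_add, Complex.exp_int_mul, h3, one_zpow, mul_one, eB z hz,
          exp_int_two_pi, mul_one]
      · intro z hz hz1
        have him : (z - q).im = 0 := by simp [hqd, hEim z hz]
        have hzq : z.re ≠ a := by
          intro h0
          apply hqA
          have : z = q := Complex.ext h0 (hEim z hz)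
          rw [← this]
          exact hEA hz
        rcases lt_or_gt_of_ne hzq with h3 | h3
        · have e1 := Lp_sub_Lm_neg (w := z - q) (by simp [hqd]; linarith) him
          have e2 := h1 z hz h3.le
          have e3 : Lp (z - q) = Lm (z - q) + 2 * Real.pi * Complex.I := by rw [← e1]; ring
          show gA z + j * (G z - Lm (z - q)) = gB z + j * (G z - Lp (z - q)) + j * (2 * Real.pi * Complex.I)
          rw [e2, e3]; ring
        · have e1 := Lp_sub_Lm_pos (w := z - q) (by simp [hqd]; linarith) him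
          have e3 : Lp (z - q) = Lm (z - q) := sub_eq_zero.mp e1
          have e2 := h2 z hz h3.le
          rw [hN z hz h3.le hz1, hn] at e2
          have e4 : gA z = gB z + (n * (2 * Real.pi * Complex.I) - m * (2 * Real.pi * Complex.I)) := by
            rw [← e2]; ring
          show gA z + j * (G z - Lm (z - q)) = gB z + j * (G z - Lp (z - q)) + j * (2 * Real.pi * Complex.I)
          rw [e4, e3, hj]; push_cast; ring
      · intro z hz hz1
        have him : (z - q).im = 0 := by simp [hqd, hEim z hz]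
        have h3 : a < z.re := by linarith
        have e1 := Lp_sub_Lm_pos (w := z - q) (by simp [hqd]; linarith) him
        have e3 : Lp (z - q) = Lm (z - q) := sub_eq_zero.mp e1
        have e2 := h2 z hz h3.le
        have e4 : gA z = gB z + (n0 z - m * (2 * Real.pi * Complex.I)) := by rw [← e2]; ring
        show gA z + j * (G z - Lm (z - q)) -
          (gB z + j * (G z - Lp (z - q)) + j * (2 * Real.pi * Complex.I)) = _
        rw [e4, e3, hj]; push_cast; ring
  · push Not at hem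
    refine ⟨gA, gB, m, cA, cB, eA, eB, fun z hz hz1 => ?_, fun z hz hz1 => h2 z hz (by linarith)⟩
    rcases le_total z.re a with h3 | h3
    · exact h1 z hz h3
    · exact absurd hz1 (not_le.mpr (hem z hz h3))

theorem glue {K : Set ℂ} (hK : IsCompact K) (hc : IsPreconnected Kᶜ) {s t : ℝ} {φ : ℂ → ℂ}
    (hst : s ≤ t) (h1 : HasLog (K ∩ {z | z.im ≤ s}) φ)
    (h2 : HasLog (K ∩ {z | s ≤ z.im ∧ z.im ≤ t}) φ) : HasLog (K ∩ {z | z.im ≤ t}) φ := by
  set A := K ∩ {z : ℂ | z.im ≤ s} with hA
  set B := K ∩ {z : ℂ | s ≤ z.im ∧ z.im ≤ t} with hB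
  set E := K ∩ {z : ℂ | z.im = s} with hE
  have hEA : E ⊆ A := fun z hz => ⟨hz.1, (le_of_eq hz.2 : z.im ≤ s)⟩
  have hEB : E ⊆ B := fun z hz => ⟨hz.1, (ge_of_eq hz.2 : s ≤ z.im), by have : z.im = s := hz.2; linarith⟩
  have hEc : IsCompact E := hK.inter_right (isClosed_eq Complex.continuous_im continuous_const)
  have hAc : IsClosed A := hK.isClosed.inter (isClosed_le Complex.continuous_im continuous_const)
  have hBc : IsClosed B := by
    apply hK.isClosed.inter
    exact (isClosed_le continuous_const Complex.continuous_im).inter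
      (isClosed_le Complex.continuous_im continuous_const)
  obtain ⟨gA, cA, eA⟩ := h1
  obtain ⟨gB, cB, eB⟩ := h2
  obtain ⟨ε, hε, hn0⟩ := diff_const hEc (cA.mono hEA) (cB.mono hEB)
    (fun z hz => by rw [eA z (hEA hz), eB z (hEB hz)])
  obtain ⟨R, hR⟩ := hK.isBounded.subset_closedBall (0 : ℂ)
  have hre : ∀ z ∈ K, |z.re| ≤ R := by
    intro z hz
    have := hR hz
    rw [Metric.mem_closedBall, dist_zero_right] at this
    exact (Complex.abs_re_le_norm z).trans this
  have main : ∀ k : ℕ, ∃ (gA' gB' : ℂ → ℂ) (m : ℤ), ContinuousOn gA' A ∧ ContinuousOn gB' B ∧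
      (∀ z ∈ A, Complex.exp (gA' z) = φ z) ∧ (∀ z ∈ B, Complex.exp (gB' z) = φ z) ∧
      (∀ z ∈ E, z.re ≤ (-R - 1 + k * (ε / 2)) → gA' z = gB' z) ∧
      (∀ z ∈ E, (-R - 1 + k * (ε / 2)) ≤ z.re →
        gA' z - gB' z = (gA z - gB z) - m * (2 * Real.pi * Complex.I)) := by
    intro k
    induction k with
    | zero =>
      refine ⟨gA, gB, 0, cA, cB, eA, eB, fun z hz hz1 => ?_, fun z hz hz1 => by simp⟩
      exfalso
      have := (abs_le.mp (hre z hz.1)).1
      simp at hz1
      linarith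
    | succ k ih =>
      have h3 := glue_step hK hc (s := s) (E := E) (fun z hz => hz.1) (fun z hz => hz.1)
        (fun z hz => hz.2) (fun z hz => hz.2.1) hEA hEB (fun z hz hz' => ⟨hz, hz'⟩)
        (n0 := fun z => gA z - gB z) (half_pos hε) (half_lt_self hε) hn0
        (fun x hx => by
          obtain ⟨n, hn⟩ := Complex.exp_eq_exp_iff_exists_int.mp
            ((eA x (hEA hx)).trans (eB x (hEB hx)).symm)
          exact ⟨n, by rw [hn]; ring⟩) ih
      have e : -R - 1 + ((k + 1 : ℕ) : ℝ) * (ε / 2) = -R - 1 + k * (ε / 2) + ε / 2 := by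
        push_cast; ring
      rw [e]
      exact h3
  obtain ⟨k, hk⟩ := exists_nat_gt ((2 * R + 1) / (ε / 2))
  rw [div_lt_iff₀ (half_pos hε)] at hk
  obtain ⟨gA', gB', m, cA', cB', eA', eB', h3, -⟩ := main k
  have hEq : ∀ z ∈ E, gA' z = gB' z := by
    intro z hz
    apply h3 z hz
    have := (abs_le.mp (hre z hz.1)).2
    linarith
  have hcup : K ∩ {z : ℂ | z.im ≤ t} = A ∪ B := by
    ext z
    constructor
    · intro hz
      rcases le_total z.im s with h | h
      · exact Or.inl ⟨hz.1, h⟩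
      · exact Or.inr ⟨hz.1, h, hz.2⟩
    · rintro (hz | hz)
      · exact ⟨hz.1, le_trans hz.2 hst⟩
      · exact ⟨hz.1, hz.2.2⟩
  have hgA : ∀ z ∈ A, (if z.im ≤ s then gA' z else gB' z) = gA' z := by
    intro z hz
    rw [if_pos (show z.im ≤ s from hz.2)]
  have hgB : ∀ z ∈ B, (if z.im ≤ s then gA' z else gB' z) = gB' z := by
    intro z hz
    by_cases h : z.im ≤ s
    · rw [if_pos h]
      exact hEq z ⟨hz.1, le_antisymm h hz.2.1⟩
    · rw [if_neg h]
  refine ⟨fun z => if z.im ≤ s then gA' z else gB' z, ?_, ?_⟩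
  · rw [hcup]
    exact (cA'.congr hgA).union_of_isClosed (cB'.congr hgB) hAc hBc
  · intro z hz
    rw [hcup] at hz
    show Complex.exp (if z.im ≤ s then gA' z else gB' z) = φ z
    rcases hz with hz | hz
    · rw [hgA z hz, eA' z hz]
    · rw [hgB z hz, eB' z hz]

end Pool.Agent.Helper34.Plane
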