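import Mathlib

/-!
# Continuous logarithms on compact plane sets with connected complement (Eilenberg)
-/

set_option autoImplicit false
open Set Filter Topology

namespace Pool.Agent.Helper34.Plane

/-- `φ` has a continuous logarithm on `K` -/
def HasLog (K : Set ℂ) (φ : ℂ → ℂ) : Prop :=
  ∃ g : ℂ → ℂ, ContinuousOn g K ∧ ∀ z ∈ K, Complex.exp (g z) = φ z

theorem HasLog.mono {K L : Set ℂ} {φ : ℂ → ℂ} (h : HasLog K φ) (hL : L ⊆ K) : HasLog L φ := by
  obtain ⟨g, hg, he⟩ := h
  exact ⟨g, hg.mono hL, fun z hz => he z (hL hz)⟩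

theorem HasLog.mul {K : Set ℂ} {φ ψ : ℂ → ℂ} (h : HasLog K φ) (h' : HasLog K ψ) :
    HasLog K (fun z => φ z * ψ z) := by
  obtain ⟨g, hg, he⟩ := h
  obtain ⟨g', hg', he'⟩ := h'
  refine ⟨fun z => g z + g' z, hg.add hg', fun z hz => ?_⟩
  rw [Complex.exp_add, he z hz, he' z hz]

theorem HasLog.congr {K : Set ℂ} {φ ψ : ℂ → ℂ} (h : HasLog K φ) (h' : ∀ z ∈ K, φ z = ψ z) :
    HasLog K ψ := by
  obtain ⟨g, hg, he⟩ := h
  exact ⟨g, hg, fun z hz => by rw [he z hz, h' z hz]⟩

theorem hasLog_const (K : Set ℂ) {c : ℂ} (hc : c ≠ 0) : HasLog K (fun _ => c) :=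
  ⟨fun _ => Complex.log c, continuousOn_const, fun _ _ => Complex.exp_log hc⟩

theorem hasLog_near_one {K : Set ℂ} {φ : ℂ → ℂ} (hφ : ContinuousOn φ K)
    (h : ∀ z ∈ K, ‖φ z - 1‖ < 1) : HasLog K φ := by
  have hs : ∀ z ∈ K, φ z ∈ Complex.slitPlane := by
    intro z hz
    left
    have h1 := Complex.abs_re_le_norm (φ z - 1)
    have h2 := h z hz
    have h3 : |(φ z).re - 1| < 1 := by simpa using lt_of_le_of_lt h1 h2
    have h4 := (abs_lt.mp h3).1
    linarith
  refine ⟨fun z => Complex.log (φ z), fun z hz => ?_, fun z hz => ?_⟩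
  · exact (hφ z hz).clog (hs z hz)
  · exact Complex.exp_log (Complex.slitPlane_ne_zero (hs z hz))

/-- `φ` close to a constant relative to its size -/
theorem hasLog_near_const {K : Set ℂ} {φ : ℂ → ℂ} (hφ : ContinuousOn φ K) {c : ℂ} (hc : c ≠ 0)
    (h : ∀ z ∈ K, ‖φ z - c‖ < ‖c‖) : HasLog K φ := by
  have h1 : HasLog K (fun z => φ z / c) := by
    apply hasLog_near_one (hφ.div_const c)
    intro z hz
    have : φ z / c - 1 = (φ z - c) / c := by field_simp
    rw [this, norm_div, div_lt_one (norm_pos_iff.mpr hc)]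
    exact h z hz
  refine ((hasLog_const K hc).mul h1).congr fun z _ => ?_
  field_simp

/-- moving the point `p` a little does not matter -/
theorem hasLog_sub_move {K : Set ℂ} {p q : ℂ} (h : HasLog K (fun z => z - p))
    (hq : ∀ z ∈ K, ‖p - q‖ < ‖z - p‖) : HasLog K (fun z => z - q) := by
  have hne : ∀ z ∈ K, z - p ≠ 0 := fun z hz h0 => by
    have := hq z hz
    rw [h0, norm_zero] at this
    exact absurd this (not_lt.mpr (norm_nonneg _))
  have h1 : HasLog K (fun z => (z - q) / (z - p)) := by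
    apply hasLog_near_one
    · exact (continuousOn_id.sub continuousOn_const).div (continuousOn_id.sub continuousOn_const) hne
    · intro z hz
      have e : (z - q) / (z - p) - 1 = (p - q) / (z - p) := by
        have := hne z hz
        field_simp
        ring
      rw [e, norm_div, div_lt_one (norm_pos_iff.mpr (hne z hz))]
      exact hq z hz
  refine (h.mul h1).congr fun z hz => ?_
  have := hne z hz
  field_simp

/-- a point outside `K` -/
theorem hasLog_sub {K : Set ℂ} (hK : IsCompact K) (hc : IsPreconnected Kᶜ) {p : ℂ} (hp : p ∉ K) :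
    HasLog K (fun z => z - p) := by
  -- local constancy
  have key : ∀ q ∈ Kᶜ, ∃ ε > 0, Metric.ball q ε ⊆ Kᶜ ∧
      ∀ q' ∈ Metric.ball q ε, (HasLog K (fun z => z - q) ↔ HasLog K (fun z => z - q')) := by
    intro q hq
    obtain ⟨δ, hδ, hb⟩ := Metric.isOpen_iff.mp hK.isClosed.isOpen_compl q hq
    have hd : ∀ z ∈ K, δ ≤ ‖z - q‖ := by
      intro z hz
      by_contra hlt
      push Not at hlt
      have : z ∈ Metric.ball q δ := by rw [Metric.mem_ball, dist_eq_norm]; exact hlt
      exact hb this hz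
    refine ⟨δ / 2, by linarith, (Metric.ball_subset_ball (by linarith)).trans hb, ?_⟩
    intro q' hq'
    rw [Metric.mem_ball, dist_eq_norm] at hq'
    constructor
    · intro h
      apply hasLog_sub_move h
      intro z hz
      have := hd z hz
      rw [norm_sub_rev]
      linarith
    · intro h
      apply hasLog_sub_move h
      intro z hz
      have h1 := hd z hz
      have h2 : ‖z - q‖ ≤ ‖z - q'‖ + ‖q' - q‖ := by
        have : z - q = (z - q') + (q' - q) := by ring
        rw [this]; exact norm_add_le _ _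
      linarith
  -- nonempty
  obtain ⟨R, hR⟩ := hK.isBounded.subset_closedBall (0 : ℂ)
  have hfar : ∃ q ∈ Kᶜ, HasLog K (fun z => z - q) := by
    refine ⟨((|R| + 1 : ℝ) : ℂ), ?_, ?_⟩
    · intro hq
      have := hR hq
      rw [Metric.mem_closedBall, dist_zero_right, Complex.norm_real] at this
      have h1 : |R| + 1 ≤ ‖(|R| + 1 : ℝ)‖ := le_abs_self _
      have h2 := le_abs_self R
      linarith
    · have hne : (-(((|R| + 1 : ℝ)) : ℂ)) ≠ 0 := by
        rw [neg_ne_zero]
        norm_cast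
        positivity
      apply hasLog_near_const (continuousOn_id.sub continuousOn_const) hne
      intro z hz
      have h1 := hR hz
      rw [Metric.mem_closedBall, dist_zero_right] at h1
      have h2 : ‖(-(((|R| + 1 : ℝ)) : ℂ))‖ = |R| + 1 := by
        rw [norm_neg, Complex.norm_real, Real.norm_eq_abs, abs_of_pos (by positivity)]
      rw [h2]
      have e : z - (((|R| + 1 : ℝ)) : ℂ) - -(((|R| + 1 : ℝ)) : ℂ) = z := by ring
      have h3 := le_abs_self R
      show ‖z - (((|R| + 1 : ℝ)) : ℂ) - -(((|R| + 1 : ℝ)) : ℂ)‖ < |R| + 1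
      rw [e]
      linarith
  set U : Set ℂ := {q | q ∈ Kᶜ ∧ HasLog K (fun z => z - q)} with hU
  set V : Set ℂ := {q | q ∈ Kᶜ ∧ ¬ HasLog K (fun z => z - q)} with hV
  have hUo : IsOpen U := by
    rw [Metric.isOpen_iff]
    intro q hq
    obtain ⟨ε, hε, hb, h⟩ := key q hq.1
    exact ⟨ε, hε, fun q' hq' => ⟨hb hq', (h q' hq').mp hq.2⟩⟩
  have hVo : IsOpen V := by
    rw [Metric.isOpen_iff]
    intro q hq
    obtain ⟨ε, hε, hb, h⟩ := key q hq.1
    exact ⟨ε, hε, fun q' hq' => ⟨hb hq', fun h' => hq.2 ((h q' hq').mpr h')⟩⟩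
  have hdis : Disjoint U V := by
    rw [Set.disjoint_left]
    intro q h1 h2
    exact h2.2 h1.2
  have hcov : Kᶜ ⊆ U ∪ V := by
    intro q hq
    by_cases h : HasLog K (fun z => z - q)
    · exact Or.inl ⟨hq, h⟩
    · exact Or.inr ⟨hq, h⟩
  have hsub : Kᶜ ⊆ U := by
    apply hc.subset_left_of_subset_union hUo hVo hdis hcov
    obtain ⟨q, hq, h⟩ := hfar
    exact ⟨q, hq, hq, h⟩
  exact (hsub hp).2

/-! ### half plane logarithms -/

/-- logarithm on the closed upper half plane -/
noncomputable def Lp (w : ℂ) : ℂ := Complex.log (-Complex.I * w) + (Real.pi / 2 : ℝ) * Complex.I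

/-- logarithm on the closed lower half plane -/
noncomputable def Lm (w : ℂ) : ℂ := Complex.log (Complex.I * w) - (Real.pi / 2 : ℝ) * Complex.I

theorem slit_up {w : ℂ} (h0 : w ≠ 0) (h : 0 ≤ w.im) : -Complex.I * w ∈ Complex.slitPlane := by
  rw [Complex.mem_slitPlane_iff]
  rcases h.lt_or_eq with h1 | h1
  · left; simpa using h1
  · right
    intro h2
    apply h0
    apply Complex.ext
    · simpa using h2
    · exact h1.symm

theorem slit_dn {w : ℂ} (h0 : w ≠ 0) (h : w.im ≤ 0) : Complex.I * w ∈ Complex.slitPlane := by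
  rw [Complex.mem_slitPlane_iff]
  rcases h.lt_or_eq with h1 | h1
  · left; simpa using h1
  · right
    intro h2
    apply h0
    apply Complex.ext
    · simpa using h2
    · exact h1

theorem exp_half : Complex.exp ((Real.pi / 2 : ℝ) * Complex.I) = Complex.I := by
  push_cast
  exact Complex.exp_pi_div_two_mul_I

theorem exp_Lp {w : ℂ} (h0 : w ≠ 0) (h : 0 ≤ w.im) : Complex.exp (Lp w) = w := by
  unfold Lp
  rw [Complex.exp_add, Complex.exp_log (Complex.slitPlane_ne_zero (slit_up h0 h)), exp_half]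
  have : -Complex.I * w * Complex.I = -(Complex.I * Complex.I) * w := by ring
  rw [this, Complex.I_mul_I]; ring

theorem exp_Lm {w : ℂ} (h0 : w ≠ 0) (h : w.im ≤ 0) : Complex.exp (Lm w) = w := by
  unfold Lm
  rw [Complex.exp_sub, Complex.exp_log (Complex.slitPlane_ne_zero (slit_dn h0 h)), exp_half]
  field_simp

/-- on the positive real axis the two logarithms agree -/
theorem Lp_sub_Lm_pos {w : ℂ} (h : 0 < w.re) (h' : w.im = 0) : Lp w - Lm w = 0 := by
  have e : w = ((w.re : ℝ) : ℂ) := by
    apply Complex.ext <;> simp [h']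
  unfold Lp Lm
  rw [e]
  have h1 : Complex.log (-Complex.I * (w.re : ℂ)) = Real.log w.re + -(Real.pi / 2) * Complex.I := by
    rw [mul_comm, Complex.log_ofReal_mul h (by simp), Complex.log_neg_I]
  have h2 : Complex.log (Complex.I * (w.re : ℂ)) = Real.log w.re + (Real.pi / 2) * Complex.I := by
    rw [mul_comm, Complex.log_ofReal_mul h (by simp), Complex.log_I]
  rw [h1, h2]
  push_cast
  ring

/-- on the negative real axis they differ by `2πi` -/
theorem Lp_sub_Lm_neg {w : ℂ} (h : w.re < 0) (h' : w.im = 0) :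
    Lp w - Lm w = 2 * Real.pi * Complex.I := by
  have e : w = ((w.re : ℝ) : ℂ) := by
    apply Complex.ext <;> simp [h']
  unfold Lp Lm
  rw [e]
  have hp : 0 < -w.re := by linarith
  have h1 : Complex.log (-Complex.I * (w.re : ℂ)) = Real.log (-w.re) + (Real.pi / 2) * Complex.I := by
    have : -Complex.I * (w.re : ℂ) = ((-w.re : ℝ) : ℂ) * Complex.I := by push_cast; ring
    rw [this, Complex.log_ofReal_mul hp (by simp), Complex.log_I]
  have h2 : Complex.log (Complex.I * (w.re : ℂ)) = Real.log (-w.re) + -(Real.pi / 2) * Complex.I := by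
    have : Complex.I * (w.re : ℂ) = ((-w.re : ℝ) : ℂ) * -Complex.I := by push_cast; ring
    rw [this, Complex.log_ofReal_mul hp (by simp), Complex.log_neg_I]
  rw [h1, h2]
  push_cast
  ring

/-! ### continuity of the half plane logarithms -/

theorem continuousOn_Lp {K : Set ℂ} {q : ℂ} (hq : q ∉ K) (h : ∀ z ∈ K, q.im ≤ z.im) :
    ContinuousOn (fun z => Lp (z - q)) K := by
  unfold Lp
  apply ContinuousOn.add _ continuousOn_const
  intro z hz
  have h0 : z - q ≠ 0 := fun h0 => hq (by rw [sub_eq_zero] at h0; exact h0 ▸ hz)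
  have hs := slit_up h0 (by simpa using h z hz)
  exact ((continuousOn_const.mul (continuousOn_id.sub continuousOn_const)) z hz).clog hs

theorem continuousOn_Lm {K : Set ℂ} {q : ℂ} (hq : q ∉ K) (h : ∀ z ∈ K, z.im ≤ q.im) :
    ContinuousOn (fun z => Lm (z - q)) K := by
  unfold Lm
  apply ContinuousOn.sub _ continuousOn_const
  intro z hz
  have h0 : z - q ≠ 0 := fun h0 => hq (by rw [sub_eq_zero] at h0; exact h0 ▸ hz)
  have hs := slit_dn h0 (by simpa using h z hz)
  exact ((continuousOn_const.mul (continuousOn_id.sub continuousOn_const)) z hz).clog hs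

/-- the difference of two logarithms of the same function is locally constant, uniformly on a compact set -/
theorem diff_const {E : Set ℂ} (hE : IsCompact E) {g h : ℂ → ℂ} (hg : ContinuousOn g E)
    (hh : ContinuousOn h E) (he : ∀ z ∈ E, Complex.exp (g z) = Complex.exp (h z)) :
    ∃ ε > 0, ∀ x ∈ E, ∀ y ∈ E, dist x y < ε → g x - h x = g y - h y := by
  have hu := hE.uniformContinuousOn_of_continuous (hg.sub hh)
  rw [Metric.uniformContinuousOn_iff] at hu
  obtain ⟨ε, hε, H⟩ := hu 1 one_pos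
  refine ⟨ε, hε, fun x hx y hy hxy => ?_⟩
  have h1 := H x hx y hy hxy
  simp only [Pi.sub_apply] at h1
  obtain ⟨n, hn⟩ := Complex.exp_eq_exp_iff_exists_int.mp (he x hx)
  obtain ⟨m, hm⟩ := Complex.exp_eq_exp_iff_exists_int.mp (he y hy)
  have e1 : g x - h x = n * (2 * Real.pi * Complex.I) := by rw [hn]; ring
  have e2 : g y - h y = m * (2 * Real.pi * Complex.I) := by rw [hm]; ring
  rw [e1, e2] at h1 ⊢
  have e3 : dist ((n : ℂ) * (2 * Real.pi * Complex.I)) ((m : ℂ) * (2 * Real.pi * Complex.I)) =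
      |((n - m : ℤ) : ℝ)| * (2 * Real.pi) := by
    rw [dist_eq_norm, ← sub_mul, norm_mul, norm_mul, norm_mul, Complex.norm_I, mul_one,
      Complex.norm_real, Real.norm_eq_abs, abs_of_pos Real.pi_pos]
    have : ((n : ℂ) - m) = (((n - m : ℤ) : ℝ) : ℂ) := by push_cast; ring
    rw [this, Complex.norm_real, Real.norm_eq_abs]
    simp
  rw [e3] at h1
  have hnm : n = m := by
    by_contra hne
    have h2 : (1 : ℝ) ≤ |((n - m : ℤ) : ℝ)| := by
      have : (1 : ℤ) ≤ |n - m| := Int.one_le_abs (sub_ne_zero.mpr hne)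
      exact_mod_cast this
    have h3 := Real.pi_gt_three
    nlinarith
  rw [hnm]

end Pool.Agent.Helper34.Plane
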