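import Pool.Agent.Helper34.Plane.Eil

/-!
# Fixed point free maps of nonseparating plane continua
-/

set_option autoImplicit false
open Set Filter Topology

namespace Pool.Agent.Helper34.Plane

/-- the direction of a nonvanishing field has a continuous real lift -/
theorem exists_angle {K : Set ℂ} (hK : IsCompact K) (hc : IsPreconnected Kᶜ) {φ : ℂ → ℂ}
    (hφ : ContinuousOn φ K) (h0 : ∀ z ∈ K, φ z ≠ 0) :
    ∃ Θ : ℂ → ℝ, ContinuousOn Θ K ∧ ∀ z ∈ K, φ z = ‖φ z‖ * Complex.exp (Θ z * Complex.I) := by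
  obtain ⟨g, cg, eg⟩ := hasLog_of_compl hK hc hφ h0
  refine ⟨fun z => (g z).im, Complex.continuous_im.comp_continuousOn cg, fun z hz => ?_⟩
  rw [← eg z hz, Complex.norm_exp, Complex.ofReal_exp, ← Complex.exp_add]
  congr 1
  exact (Complex.re_add_im (g z)).symm

/-- the parallel principle: two maps `u, v` of a compact connected space into `K`, the image of `u` inside the
image of `v` -/
theorem parallel {K : Set ℂ} {Θ : ℂ → ℝ} (hΘ : ContinuousOn Θ K) {X : Set ℂ} (hX : IsCompact X)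
    (hXc : IsConnected X) {u : ℂ → ℂ} (hu : ContinuousOn u X) (huX : MapsTo u X X) (hXK : X ⊆ K) :
    ∃ z ∈ X, Θ (u z) = Θ z := by
  have cΘ := hΘ.mono hXK
  have cα : ContinuousOn (fun z => Θ (u z) - Θ z) X := (cΘ.comp hu huX).sub cΘ
  obtain ⟨a, ha, hmax⟩ := hX.exists_isMaxOn hXc.nonempty cΘ
  obtain ⟨b, hb, hmin⟩ := hX.exists_isMinOn hXc.nonempty cΘ
  have h1 : Θ (u a) - Θ a ≤ 0 := by
    have : Θ (u a) ≤ Θ a := hmax (huX ha)
    linarith
  have h2 : 0 ≤ Θ (u b) - Θ b := by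
    have : Θ b ≤ Θ (u b) := hmin (huX hb)
    linarith
  have h3 := hXc.isPreconnected.intermediate_value ha hb cα
  obtain ⟨z, hz, hz0⟩ := h3 ⟨h1, h2⟩
  exact ⟨z, hz, by simpa [sub_eq_zero] using hz0⟩

/-- an orbit of `f` inside a compact set with constant direction of displacement converges to a fixed point -/
theorem fixed_of_const_dir {X : Set ℂ} (hX : IsCompact X) {f : ℂ → ℂ} (hf : ContinuousOn f X)
    (hfX : MapsTo f X X) {ω : ℂ} (hω : ‖ω‖ = 1) {z : ℂ} (hz : z ∈ X)
    (h : ∀ n : ℕ, f^[n + 1] z - f^[n] z = ‖f^[n + 1] z - f^[n] z‖ * ω) : ∃ w ∈ X, f w = w := by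
  have hmem : ∀ n : ℕ, f^[n] z ∈ X := fun n => (hfX.iterate n) hz
  -- the real parameter
  set s : ℕ → ℝ := fun n => ∑ k ∈ Finset.range n, ‖f^[k + 1] z - f^[k] z‖ with hs
  have hsz : ∀ n : ℕ, f^[n] z = z + s n * ω := by
    intro n
    induction n with
    | zero => simp [hs]
    | succ n ih =>
      have h1 : s (n + 1) = s n + ‖f^[n + 1] z - f^[n] z‖ := by
        rw [hs]; exact Finset.sum_range_succ _ _
      have h2 := h n
      rw [h1]
      push_cast
      linear_combination h2 + ih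
  have hmono : Monotone s := by
    apply monotone_nat_of_le_succ
    intro n
    have h1 : s (n + 1) = s n + ‖f^[n + 1] z - f^[n] z‖ := by
      rw [hs]; exact Finset.sum_range_succ _ _
    rw [h1]
    linarith [norm_nonneg (f^[n + 1] z - f^[n] z)]
  obtain ⟨R, hR⟩ := hX.isBounded.subset_closedBall (0 : ℂ)
  have hbd : BddAbove (range s) := by
    refine ⟨2 * R, ?_⟩
    rintro _ ⟨n, rfl⟩
    have h1 : (s n : ℂ) * ω = f^[n] z - z := by rw [hsz n]; ring
    have h2 : ‖(s n : ℂ) * ω‖ = |s n| := by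
      rw [norm_mul, hω, mul_one, Complex.norm_real, Real.norm_eq_abs]
    have h3 := hR (hmem n)
    have h4 := hR hz
    rw [Metric.mem_closedBall, dist_zero_right] at h3 h4
    have h5 : |s n| ≤ ‖f^[n] z‖ + ‖z‖ := by
      rw [← h2, h1]; exact norm_sub_le _ _
    linarith [le_abs_self (s n)]
  have hlim := tendsto_atTop_ciSup hmono hbd
  set S := ⨆ n, s n with hS
  have hlim2 : Tendsto (fun n => f^[n] z) atTop (𝓝 (z + S * ω)) := by
    have : Tendsto (fun n => z + (s n : ℂ) * ω) atTop (𝓝 (z + S * ω)) := by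
      apply Tendsto.const_add
      apply Tendsto.mul_const
      exact (Complex.continuous_ofReal.tendsto S).comp hlim
    exact this.congr (fun n => (hsz n).symm)
  have hwX : z + S * ω ∈ X := hX.isClosed.mem_of_tendsto hlim2 (Eventually.of_forall hmem)
  refine ⟨z + S * ω, hwX, ?_⟩
  have h1 : Tendsto (fun n => f (f^[n] z)) atTop (𝓝 (f (z + S * ω))) := by
    have h2 : Tendsto (fun n => f^[n] z) atTop (𝓝[X] (z + S * ω)) :=
      tendsto_nhdsWithin_iff.mpr ⟨hlim2, Eventually.of_forall hmem⟩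
    exact (hf _ hwX).tendsto.comp h2
  have h3 : Tendsto (fun n => f (f^[n] z)) atTop (𝓝 (z + S * ω)) := by
    have h4 := (tendsto_add_atTop_iff_nat 1).mpr hlim2
    refine h4.congr fun n => ?_
    rw [Function.iterate_succ_apply']
  exact tendsto_nhds_unique h1 h3

/-- cross product of two displacement vectors in terms of the angle -/
theorem cross_eq {a b : ℂ} {s t : ℝ} (ha : a = ‖a‖ * Complex.exp (s * Complex.I))
    (hb : b = ‖b‖ * Complex.exp (t * Complex.I)) :
    a.re * b.im - a.im * b.re = ‖a‖ * ‖b‖ * Real.sin (t - s) := by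
  have h1 : a.re = ‖a‖ * Real.cos s := by
    conv_lhs => rw [ha]
    rw [Complex.re_ofReal_mul, Complex.exp_ofReal_mul_I_re]
  have h2 : a.im = ‖a‖ * Real.sin s := by
    conv_lhs => rw [ha]
    rw [Complex.im_ofReal_mul, Complex.exp_ofReal_mul_I_im]
  have h3 : b.re = ‖b‖ * Real.cos t := by
    conv_lhs => rw [hb]
    rw [Complex.re_ofReal_mul, Complex.exp_ofReal_mul_I_re]
  have h4 : b.im = ‖b‖ * Real.sin t := by
    conv_lhs => rw [hb]
    rw [Complex.im_ofReal_mul, Complex.exp_ofReal_mul_I_im]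
  rw [h1, h2, h3, h4, Real.sin_sub]
  ring

/-- a connected set of values of `α` containing `0` on which `sin ≤ 0` lies in `[-π, 0]` -/
theorem nonpos_of_sin {X : Set ℂ} (hXc : IsConnected X) {α : ℂ → ℝ} (hα : ContinuousOn α X)
    (h0 : ∃ z ∈ X, α z = 0) (h : ∀ z ∈ X, Real.sin (α z) ≤ 0) : ∀ z ∈ X, α z ≤ 0 := by
  obtain ⟨a, ha, ha0⟩ := h0
  intro z hz
  by_contra hlt
  push Not at hlt
  have h1 := hXc.isPreconnected.intermediate_value ha hz hα
  have hm : min (α z) 1 ∈ Icc (α a) (α z) := by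
    rw [ha0]
    exact ⟨le_min hlt.le zero_le_one, min_le_left _ _⟩
  obtain ⟨w, hw, hwe⟩ := h1 hm
  have h2 := h w hw
  rw [hwe] at h2
  have h3 : 0 < Real.sin (min (α z) 1) := by
    apply Real.sin_pos_of_pos_of_lt_pi (lt_min hlt one_pos)
    have := Real.pi_gt_three
    have := min_le_right (α z) 1
    linarith
  linarith

/-- **Main theorem.** -/
theorem main {K X : Set ℂ} (hK : IsCompact K) (hc : IsPreconnected Kᶜ) (hX : IsCompact X)
    (hXc : IsConnected X) (hXK : X ⊆ K) {f : ℂ → ℂ} (hf : ContinuousOn f K) (hfX : MapsTo f X X)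
    (h0 : ∀ z ∈ K, f z ≠ z) :
    (∀ u : ℂ → ℂ, ContinuousOn u X → MapsTo u X X →
      ∃ z ∈ X, ∃ r : ℝ, 0 < r ∧ f (u z) - u z = r * (f z - z)) ∧
    (∃ z ∈ X, 0 < (f z - z).re * (f (f z) - f z).im - (f z - z).im * (f (f z) - f z).re) ∧
    (∃ z ∈ X, (f z - z).re * (f (f z) - f z).im - (f z - z).im * (f (f z) - f z).re < 0) := by
  have hφ : ContinuousOn (fun z => f z - z) K := hf.sub continuousOn_id
  obtain ⟨Θ, cΘ, eΘ⟩ := exists_angle hK hc hφ (fun z hz => sub_ne_zero.mpr (h0 z hz))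
  have cΘX := cΘ.mono hXK
  have cfX := hf.mono hXK
  have cα : ContinuousOn (fun z => Θ (f z) - Θ z) X := (cΘX.comp cfX hfX).sub cΘX
  have hα0 : ∃ z ∈ X, (fun z => Θ (f z) - Θ z) z = 0 := by
    obtain ⟨z, hz, hz0⟩ := parallel cΘ hX hXc cfX hfX hXK
    exact ⟨z, hz, sub_eq_zero.mpr hz0⟩
  have hcross : ∀ z ∈ X, (f z - z).re * (f (f z) - f z).im - (f z - z).im * (f (f z) - f z).re =
      ‖f z - z‖ * ‖f (f z) - f z‖ * Real.sin (Θ (f z) - Θ z) := fun z hz =>
    cross_eq (eΘ z (hXK hz)) (eΘ (f z) (hXK (hfX hz)))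
  have hpos : ∀ z ∈ X, 0 < ‖f z - z‖ * ‖f (f z) - f z‖ := fun z hz =>
    mul_pos (norm_pos_iff.mpr (sub_ne_zero.mpr (h0 z (hXK hz))))
      (norm_pos_iff.mpr (sub_ne_zero.mpr (h0 _ (hXK (hfX hz)))))
  -- a point of the orbit of which all have the same angle is impossible
  have hno : ∀ z ∈ X, ¬ ∀ n : ℕ, Θ (f^[n] z) = Θ z := by
    intro z hz hall
    obtain ⟨w, hw, hw0⟩ := fixed_of_const_dir (ω := Complex.exp (Θ z * Complex.I)) hX cfX hfX
      (Complex.norm_exp_ofReal_mul_I _) hz (fun n => by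
        have h1 := eΘ (f^[n] z) (hXK ((hfX.iterate n) hz))
        rw [hall n] at h1
        rw [Function.iterate_succ_apply']
        exact h1)
    exact h0 w (hXK hw) hw0
  refine ⟨?_, ?_, ?_⟩
  · intro u hu huX
    obtain ⟨z, hz, hz0⟩ := parallel cΘ hX hXc hu huX hXK
    have e1 := eΘ z (hXK hz)
    have e2 := eΘ (u z) (hXK (huX hz))
    have p1 : 0 < ‖f z - z‖ := norm_pos_iff.mpr (sub_ne_zero.mpr (h0 z (hXK hz)))
    have p2 : 0 < ‖f (u z) - u z‖ := norm_pos_iff.mpr (sub_ne_zero.mpr (h0 _ (hXK (huX hz))))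
    refine ⟨z, hz, ‖f (u z) - u z‖ / ‖f z - z‖, div_pos p2 p1, ?_⟩
    have e1' : f z - z = ‖f z - z‖ * Complex.exp (Θ z * Complex.I) := e1
    have e2' : f (u z) - u z = ‖f (u z) - u z‖ * Complex.exp (Θ z * Complex.I) := by
      rw [← hz0]; exact e2
    calc f (u z) - u z = ‖f (u z) - u z‖ * Complex.exp (Θ z * Complex.I) := e2'
      _ = ((‖f (u z) - u z‖ / ‖f z - z‖ : ℝ) : ℂ) * (‖f z - z‖ * Complex.exp (Θ z * Complex.I)) := by
          have : (‖f z - z‖ : ℂ) ≠ 0 := by exact_mod_cast p1.ne'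
          push_cast
          field_simp
      _ = _ := by rw [← e1']
  · by_contra hcon
    push Not at hcon
    have hle := nonpos_of_sin hXc cα hα0 (fun z hz => by
      have h1 := hcon z hz
      rw [hcross z hz] at h1
      by_contra h2
      push Not at h2
      have := mul_pos (hpos z hz) h2
      linarith)
    obtain ⟨b, hb, hmin⟩ := hX.exists_isMinOn hXc.nonempty cΘX
    refine hno b hb fun n => ?_
    induction n with
    | zero => rfl
    | succ n ih =>
      rw [Function.iterate_succ_apply']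
      have hm : f^[n] b ∈ X := (hfX.iterate n) hb
      have h1 := hle _ hm
      have h2 : Θ b ≤ Θ (f (f^[n] b)) := hmin (hfX hm)
      have h3 : Θ (f (f^[n] b)) - Θ (f^[n] b) ≤ 0 := h1
      linarith
  · by_contra hcon
    push Not at hcon
    have hle := nonpos_of_sin (α := fun z => -(Θ (f z) - Θ z)) hXc cα.neg
      (by obtain ⟨z, hz, hz0⟩ := hα0; exact ⟨z, hz, by
        have : Θ (f z) - Θ z = 0 := hz0
        show -(Θ (f z) - Θ z) = 0
        rw [this, neg_zero]⟩) (fun z hz => by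
      have h1 := hcon z hz
      rw [hcross z hz] at h1
      show Real.sin (-(Θ (f z) - Θ z)) ≤ 0
      rw [Real.sin_neg]
      by_contra h2
      push Not at h2
      have := mul_pos (hpos z hz) h2
      linarith)
    obtain ⟨b, hb, hmax⟩ := hX.exists_isMaxOn hXc.nonempty cΘX
    refine hno b hb fun n => ?_
    induction n with
    | zero => rfl
    | succ n ih =>
      rw [Function.iterate_succ_apply']
      have hm : f^[n] b ∈ X := (hfX.iterate n) hb
      have h1 := hle _ hm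
      have h2 : Θ (f (f^[n] b)) ≤ Θ b := hmax (hfX hm)
      have h3 : -(Θ (f (f^[n] b)) - Θ (f^[n] b)) ≤ 0 := h1
      linarith

end Pool.Agent.Helper34.Plane
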